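import Pool.Agent.Helper55.FR.GoalsB

/-!
Project FR: orientation of the 2-factor (goal `OriStmt`).
-/

namespace Pool.Agent.Helper58.FR

open Finset
open _root_.Pool.Agent.Helper55.FR

theorem ori : OriStmt := by
  intro V _ _ G _ hG M hM
  classical
  rw [SimpleGraph.Subgraph.isPerfectMatching_iff] at hM
  choose m hm hu using hM
  have hmM : ∀ x y, M.Adj x y ↔ y = m x := by
    intro x y
    constructor
    · exact fun h => hu x y h
    · rintro rfl
      exact hm x
  have hmm : ∀ v, m (m v) = v := by
    intro v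
    have h1 : M.Adj (m v) v := ((hmM v (m v)).2 rfl).symm
    exact ((hmM _ _).1 h1).symm
  have hmG : ∀ v, G.Adj v (m v) := fun v => (hm v).adj_sub
  have hmv : ∀ v, m v ≠ v := fun v => (hmG v).ne'
  -- the edges of the 2-factor at a vertex
  set N : V → Finset V := fun x => (G.neighborFinset x).erase (m x) with hN
  have hNc : ∀ x, (N x).card = 2 := by
    intro x
    simp only [hN]
    rw [card_erase_of_mem (by simpa using hmG x), G.card_neighborFinset_eq_degree, hG x]
  have hNm : ∀ x y, y ∈ N x ↔ G.Adj x y ∧ y ≠ m x := by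
    intro x y
    simp only [hN, mem_erase, SimpleGraph.mem_neighborFinset]
    tauto
  have hNs : ∀ x y, y ∈ N x → x ∈ N y := by
    intro x y h
    rw [hNm] at h ⊢
    refine ⟨h.1.symm, fun h1 => h.2 ?_⟩
    rw [h1, hmm]
  set t : V → Finset (Sym2 V) := fun x => (N x).image fun y => s(x, y) with ht
  have htc : ∀ x, (t x).card = 2 := by
    intro x
    simp only [ht]
    rw [card_image_of_injective _ (fun y y' h => ?_), hNc]
    rcases Sym2.eq_iff.1 h with h1 | h1
    · exact h1.2
    · exact h1.2.trans h1.1
  have htm : ∀ x e, e ∈ t x ↔ ∃ y ∈ N x, s(x, y) = e := by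
    intro x e
    simp only [ht, mem_image]
  -- the ends of an edge
  have hends : ∀ e : Sym2 V, ∃ a b : V, e = s(a, b) := by
    intro e
    induction e using Sym2.ind with
    | _ a b => exact ⟨a, b, rfl⟩
  have hle2 : ∀ (A : Finset V) (e : Sym2 V), (A.filter fun x => e ∈ t x).card ≤ 2 := by
    intro A e
    obtain ⟨a, b, rfl⟩ := hends e
    refine (card_le_card (t := {a, b}) ?_).trans card_le_two
    intro x hx
    rw [mem_filter, htm] at hx
    obtain ⟨-, y, -, hy⟩ := hx
    rw [Sym2.eq_iff] at hy
    rw [mem_insert, mem_singleton]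
    rcases hy with h | h
    · exact Or.inl h.1
    · exact Or.inr h.1
  have hcount : ∀ A : Finset V, 2 * A.card = ∑ e ∈ A.biUnion t, (A.filter fun x => e ∈ t x).card := by
    intro A
    have h1 : ∑ x ∈ A, (t x).card = ∑ x ∈ A, ((A.biUnion t).filter fun e => e ∈ t x).card := by
      refine sum_congr rfl fun x hx => ?_
      congr 1
      ext e
      rw [mem_filter]
      exact ⟨fun h => ⟨mem_biUnion.2 ⟨x, hx, h⟩, h⟩, fun h => h.2⟩
    have h2 : ∑ x ∈ A, (t x).card = 2 * A.card := by
      rw [sum_congr rfl fun x _ => htc x, sum_const, smul_eq_mul, mul_comm]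
    rw [← h2, h1]
    simp only [card_filter]
    exact sum_comm
  have hall : ∀ A : Finset V, A.card ≤ (A.biUnion t).card := by
    intro A
    have h1 := hcount A
    have h2 : ∑ e ∈ A.biUnion t, (A.filter fun x => e ∈ t x).card ≤ ∑ e ∈ A.biUnion t, 2 :=
      sum_le_sum fun e _ => hle2 A e
    rw [sum_const, smul_eq_mul] at h2
    omega
  obtain ⟨e, einj, he⟩ := (Finset.all_card_le_biUnion_card_iff_exists_injective t).1 hall
  -- every edge is some e x
  have hE : ((univ : Finset V).biUnion t).card ≤ (univ : Finset V).card := by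
    have h1 := hcount univ
    have h2 : ∑ e ∈ (univ : Finset V).biUnion t, 2 ≤
        ∑ e ∈ (univ : Finset V).biUnion t, ((univ : Finset V).filter fun x => e ∈ t x).card := by
      refine sum_le_sum fun f hf => ?_
      obtain ⟨x, -, hx⟩ := mem_biUnion.1 hf
      obtain ⟨y, hy, rfl⟩ := (htm x f).1 hx
      have hne : x ≠ y := ((hNm x y).1 hy).1.ne
      rw [← card_pair hne]
      refine card_le_card fun z hz => ?_
      rw [mem_insert, mem_singleton] at hz
      rw [mem_filter]
      refine ⟨mem_univ _, ?_⟩
      rcases hz with rfl | rfl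
      · exact hx
      · exact (htm _ _).2 ⟨x, hNs _ _ hy, Sym2.eq_swap⟩
    rw [sum_const, smul_eq_mul] at h2
    omega
  have himg : (univ : Finset V).image e = (univ : Finset V).biUnion t := by
    refine eq_of_subset_of_card_le ?_ ?_
    · intro f hf
      obtain ⟨x, -, rfl⟩ := mem_image.1 hf
      exact mem_biUnion.2 ⟨x, mem_univ _, he x⟩
    · rw [card_image_of_injective _ einj]
      exact hE
  have hn : ∀ x, ∃ y ∈ N x, s(x, y) = e x := fun x => (htm x (e x)).1 (he x)
  choose n hnN hne using hn
  have hnv : ∀ x, n x ≠ x := fun x => (((hNm x (n x)).1 (hnN x)).1).ne'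
  have ninj : Function.Injective n := by
    intro x y hxy
    by_contra hne'
    have hx : x ∈ N (n x) := hNs _ _ (hnN x)
    have hy : y ∈ N (n x) := by
      rw [hxy]
      exact hNs _ _ (hnN y)
    have hsub : ({x, y} : Finset V) ⊆ N (n x) := by
      intro z hz
      rw [mem_insert, mem_singleton] at hz
      rcases hz with rfl | rfl
      · exact hx
      · exact hy
    have heq : ({x, y} : Finset V) = N (n x) :=
      eq_of_subset_of_card_le hsub (by rw [hNc, card_pair hne'])
    have hz : n (n x) ∈ ({x, y} : Finset V) := by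
      rw [heq]
      exact hnN (n x)
    rw [mem_insert, mem_singleton] at hz
    rcases hz with h | h
    · have h1 : e (n x) = e x := by
        rw [← hne (n x), ← hne x, h]
        exact Sym2.eq_swap
      exact hnv x (einj h1)
    · have h1 : e (n x) = e y := by
        rw [← hne (n x), ← hne y, h, hxy]
        exact Sym2.eq_swap
      exact hnv y (hxy ▸ einj h1)
  have hnn : ∀ x, n (n x) ≠ x := by
    intro x h
    have h1 : e (n x) = e x := by
      rw [← hne (n x), ← hne x, h]
      exact Sym2.eq_swap
    exact hnv x (einj h1)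
  have nbij : Function.Bijective n := Finite.injective_iff_bijective.1 ninj
  refine ⟨Equiv.ofBijective n nbij, m, ⟨hmm, hmv, hnv, hnn, fun v => ?_⟩, ?_, hmM⟩
  · exact ((hNm v (n v)).1 (hnN v)).2
  · intro x y
    unfold adj
    simp only [Equiv.ofBijective_apply]
    constructor
    · intro h
      by_cases hy : y = m x
      · exact Or.inr (Or.inr hy)
      · have h1 : s(x, y) ∈ (univ : Finset V).biUnion t :=
          mem_biUnion.2 ⟨x, mem_univ _, (htm _ _).2 ⟨y, (hNm x y).2 ⟨h, hy⟩, rfl⟩⟩
        rw [← himg] at h1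
        obtain ⟨w, -, hw⟩ := mem_image.1 h1
        rw [← hne w, Sym2.eq_iff] at hw
        rcases hw with ⟨rfl, rfl⟩ | ⟨rfl, rfl⟩
        · exact Or.inl rfl
        · exact Or.inr (Or.inl rfl)
    · rintro (h | h | h)
      · rw [h]
        exact ((hNm x (n x)).1 (hnN x)).1
      · rw [h]
        exact ((hNm y (n y)).1 (hnN y)).1.symm
      · rw [h]
        exact hmG x

end Pool.Agent.Helper58.FR
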